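import Pool.Agent.ECK.Defs
import Pool.Agent.ECB.Lattice
import Pool.Agent.ECC.CountB
import Pool.Agent.ECG.Induct
import Pool.Agent.ECL.ExpStep
import Pool.Agent.ECL.Racinet
import Pool.Agent.ECR.Point
import Pool.Agent.H44DM.FreeGen

/-!
# Assembly: `dm` is freely generated by one element of each odd weight `≥ 3`

The two inputs on the reductions modulo 2 of the elements of `dm_w`, `w ≥ 3`, are

* `KV w`: the unit-free parts are Lie elements in the letters of weights `2`, `3`;
* `Cleansing w`: an element is determined by its unit-free part.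

`free_generation` deduces from them that `dm` is freely generated by homogeneous elements
`s_n`, `n ≥ 0`, with `s_n` of weight `2 n + 3`.
-/

set_option autoImplicit false

namespace Pool.Agent.ECA

open Pool.Agent.H4DM Pool.Agent.H44DM
open Pool.Agent.ECB (redM dmw finrank_dmw_le_redM redM_length)
open Pool.Agent.ECC (VW bm mwt ow tw lt NP Hom wtl FLw cfs)
open Pool.Agent.ECK (LA cy)

attribute [local instance] LieRing.ofAssociativeRing

noncomputable section

/-! ### Relabelling of the letters -/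

section relabel
variable (R : Type*) [CommRing R] {L : Type*} [LieRing L] [LieAlgebra R L] {X Y : Type*}

/-- Relabelling of a bracket monomial. -/
def mmap (e : X → Y) : FreeMagma X → FreeMagma Y
  | .of x => .of (e x)
  | .mul a b => .mul (mmap e a) (mmap e b)

theorem mwt_mmap (e : X → Y) (wt' : Y → ℕ) (m : FreeMagma X) :
    mwt wt' (mmap e m) = mwt (fun x => wt' (e x)) m := by
  induction m using FreeMagma.rec with
  | of x => rfl
  | mul a b iha ihb => rw [mmap, mwt, mwt, iha, ihb]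

theorem bm_mmap (e : X → Y) (g : Y → L) (m : FreeMagma X) :
    bm g (mmap e m) = bm (fun x => g (e x)) m := by
  induction m using FreeMagma.rec with
  | of x => rfl
  | mul a b iha ihb => rw [mmap, bm, bm, iha, ihb]

theorem VW_le_relabel (e : X → Y) (g : Y → L) (wt' : Y → ℕ) (w : ℕ) :
    VW R (fun x => g (e x)) (fun x => wt' (e x)) w ≤ VW R g wt' w := by
  rw [VW, Submodule.span_le]
  rintro _ ⟨m, rfl, rfl⟩
  exact Submodule.subset_span ⟨mmap e m, mwt_mmap e wt' m, bm_mmap e g m⟩

end relabel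

/-! ### The dimension of `dm_w` -/

/-- The unit-free parts of the reductions modulo 2 of the elements of `dm_w` are Lie elements in
the letters of weights `2`, `3`. -/
def KV (w : ℕ) : Prop := ∀ c ∈ redM w 2,
  (∀ v : List ℕ, (∃ k ∈ v, 2 ≤ k) → c (cy v) = 0) ∧
    ∃ q ∈ LA (ZMod 2) (Fin 2), ∀ u : List (Fin 2),
      Pool.Agent.ECK.cf q u = c (cy (u.map (fun i => i.val)))

/-- A reduction modulo 2 of an element of `dm_w` is determined by its unit-free part. -/
def Cleansing (w : ℕ) : Prop := ∀ c ∈ redM w 2, (∀ v : List ℕ, c (cy v) = 0) → c = 0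

/-- The weights of the letters. -/
def w23 (i : Fin 2) : ℕ := i.val + 2

theorem length_cy (v : List ℕ) : (cy v).length = (v.map (fun k => k + 2)).sum := by
  induction v with
  | nil => rfl
  | cons k v ih =>
    rw [cy, List.length_append, List.length_replicate, List.length_cons, ih, List.map_cons,
      List.sum_cons]
    ring

/-- The unit-free part. -/
def ufp (w : ℕ) : redM w 2 →ₗ[ZMod 2] (FreeMonoid (Fin 2) → ZMod 2) where
  toFun c := fun u => c.1 (cy (u.toList.map (fun i => i.val)))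
  map_add' _ _ := rfl
  map_smul' _ _ := rfl

theorem ufp_injective {w : ℕ} (hK : KV w) (hC : Cleansing w) : Function.Injective (ufp w) := by
  rw [injective_iff_map_eq_zero]
  rintro ⟨c, hc⟩ h
  apply Subtype.ext
  apply hC c hc
  intro v
  by_cases hv : ∃ k ∈ v, 2 ≤ k
  · exact (hK c hc).1 v hv
  · push Not at hv
    have key : ∀ v : List ℕ, (∀ k ∈ v, k < 2) →
        ∃ u : List (Fin 2), u.map (fun i => i.val) = v := by
      intro v
      induction v with
      | nil => intro _; exact ⟨[], rfl⟩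
      | cons k v ih =>
        intro hv
        obtain ⟨u, hu⟩ := ih (fun j hj => hv j (List.mem_cons_of_mem _ hj))
        exact ⟨⟨k, hv k List.mem_cons_self⟩ :: u, by rw [List.map_cons, hu]⟩
    obtain ⟨u, rfl⟩ := key v hv
    exact congrFun h (FreeMonoid.ofList u)

theorem range_ufp_le {w : ℕ} (hK : KV w) :
    LinearMap.range (ufp w) ≤ (VW (ZMod 2) (lt (ZMod 2)) w23 w).map (cfs (ZMod 2) (Fin 2)) := by
  rintro _ ⟨⟨c, hc⟩, rfl⟩
  obtain ⟨_, q, hq, h⟩ := hK c hc
  refine ⟨q, ?_, ?_⟩
  · apply Pool.Agent.ECC.mem_VW_of_lieSpan w23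
    · exact hq
    · intro l hl
      have h1 : q.coeff l = c (cy (l.toList.map (fun i => i.val))) := h l.toList
      rw [h1] at hl
      by_contra hne
      apply hl
      apply redM_length hc
      rw [length_cy, List.map_map]
      exact hne
  · funext u
    exact h u.toList

theorem VW_two_three_le (w : ℕ) :
    VW (ZMod 2) (lt (ZMod 2) (X := Fin 2)) w23 w ≤
      VW (ZMod 2) (fun b : Bool => lt (ZMod 2) (if b then (0 : Fin 2) else 1)) tw w := by
  have h := VW_le_relabel (ZMod 2) (fun i : Fin 2 => decide (i = 0))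
    (fun b : Bool => lt (ZMod 2) (if b then (0 : Fin 2) else 1)) tw w
  have h1 : (fun i : Fin 2 => (fun b : Bool => lt (ZMod 2) (if b then (0 : Fin 2) else 1))
      (decide (i = 0))) = lt (ZMod 2) (X := Fin 2) := by
    funext i
    fin_cases i <;> rfl
  have h2 : (fun i : Fin 2 => tw (decide (i = 0))) = w23 := by
    funext i
    fin_cases i <;> rfl
  rw [h1, h2] at h
  exact h

theorem finrank_dmw_le {w : ℕ} (hw : w ≠ 2) (hK : KV w) (hC : Cleansing w) :
    Module.finrank ℚ (dmw w) ≤ Module.finrank ℚ (FLw ow w) := by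
  have hF : Module.Finite (ZMod 2) (VW (ZMod 2) (lt (ZMod 2) (X := Fin 2)) w23 w) :=
    Pool.Agent.ECC.VW_finite _ _ _ (by intro x; unfold w23; omega) (fun n => Set.toFinite _) w
  have hF' : Module.Finite (ZMod 2)
      (VW (ZMod 2) (fun b : Bool => lt (ZMod 2) (if b then (0 : Fin 2) else 1)) tw w) :=
    Pool.Agent.ECC.VW_finite _ _ _ (by intro x; cases x <;> simp [tw]) (fun n => Set.toFinite _) w
  calc Module.finrank ℚ (dmw w) ≤ Module.finrank (ZMod 2) (redM w 2) := finrank_dmw_le_redM w 2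
    _ = Module.finrank (ZMod 2) (LinearMap.range (ufp w)) :=
        (LinearMap.finrank_range_of_inj (ufp_injective hK hC)).symm
    _ ≤ Module.finrank (ZMod 2)
        ((VW (ZMod 2) (lt (ZMod 2)) w23 w).map (cfs (ZMod 2) (Fin 2))) :=
        Submodule.finrank_mono (range_ufp_le hK)
    _ ≤ Module.finrank (ZMod 2) (VW (ZMod 2) (lt (ZMod 2) (X := Fin 2)) w23 w) :=
        Submodule.finrank_map_le _ _
    _ ≤ Module.finrank (ZMod 2)
        (VW (ZMod 2) (fun b : Bool => lt (ZMod 2) (if b then (0 : Fin 2) else 1)) tw w) :=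
        Submodule.finrank_mono (VW_two_three_le w)
    _ ≤ Module.finrank ℚ (VW ℚ (lt ℚ (X := ℕ)) ow w) := Pool.Agent.ECC.count_le _ hw
    _ = Module.finrank ℚ (FLw ow w) := Pool.Agent.ECC.finrank_freeLie ow w

theorem dmw_small {w : ℕ} (hw : w ≤ 2) {ψ : NC (Fin 2)} (h : ψ ∈ dmw w) : ψ = 0 := by
  obtain ⟨h1, h2⟩ := h
  have h3 := Pool.Agent.ECL.comp_small h1 (n := w) hw
  rwa [h2.comp_eq] at h3

/-! ### `dm` and its homogeneous parts inside `IharaLie` -/

/-- The underlying polynomial, linearly. -/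
def valL : IharaLie →ₗ[ℚ] NC (Fin 2) where
  toFun := IharaLie.val
  map_add' _ _ := rfl
  map_smul' _ _ := rfl

theorem valL_injective : Function.Injective valL := IharaLie.val_injective

/-- The weight `w` part of `dm`. -/
def Dw (w : ℕ) : Submodule ℚ IharaLie := (dmw w).comap valL

theorem mem_Dw {w : ℕ} {ψ : IharaLie} : ψ ∈ Dw w ↔ IsDM ψ.val ∧ Hg wX w ψ.val := Iff.rfl

/-- The embedding in `dm_w`. -/
def Dwm (w : ℕ) : Dw w →ₗ[ℚ] dmw w :=
  LinearMap.codRestrict (dmw w) (valL ∘ₗ (Dw w).subtype) (fun ψ => ψ.2)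

theorem Dwm_injective (w : ℕ) : Function.Injective (Dwm w) := by
  intro a b h
  apply Subtype.ext
  apply valL_injective
  exact congrArg Subtype.val h

instance (w : ℕ) : Module.Finite ℚ (Dw w) := Module.Finite.of_injective (Dwm w) (Dwm_injective w)

theorem finrank_Dw_le (w : ℕ) : Module.finrank ℚ (Dw w) ≤ Module.finrank ℚ (dmw w) :=
  LinearMap.finrank_le_finrank_of_injective (Dwm_injective w)

theorem Hg_ihBr {f g : NC (Fin 2)} {i j : ℕ} (hf : Hg wX i f) (hg : Hg wX j g) :
    Hg wX (i + j) (ihBr f g) := by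
  have h1 : ihBr f g = sOp f g - sOp g f := by
    rw [ihBr, sOp_apply, sOp_apply]; abel
  rw [h1]
  refine Hg.sub (Hg_sOp hf hg) ?_
  rw [add_comm]
  exact Hg_sOp hg hf

theorem VW_le_Dw (s : ℕ → IharaLie) (hs : ∀ n, s n ∈ Dw (ow n)) (w : ℕ) :
    VW ℚ s ow w ≤ Dw w := by
  rw [VW, Submodule.span_le]
  rintro _ ⟨m, rfl, rfl⟩
  induction m using FreeMagma.rec with
  | of n => exact hs n
  | mul a b iha ihb =>
    exact ⟨Pool.Agent.ECL.IsDM.bracket iha.1 ihb.1, Hg_ihBr iha.2 ihb.2⟩

/-! ### The generators -/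

theorem exists_generators : ∃ s : ℕ → IharaLie, (∀ n, s n ∈ Dw (ow n)) ∧
    ∀ n, cf (s n).val (List.replicate (2 * n + 2) 0 ++ [1]) ≠ 0 := by
  obtain ⟨Φ, Λ, h, hz⟩ := Pool.Agent.ECR.real_point
  have h1 := fun k => Pool.Agent.ECG.odd_elements Pool.Agent.ECL.expStep h hz k
  choose ψ hψ1 hψ2 hψ3 using h1
  refine ⟨fun n => ⟨ψ n, (hψ1 n).1⟩, fun n => ⟨hψ1 n, ?_⟩, hψ3⟩
  intro l hl
  rw [wt_wX]
  by_contra hne
  exact hl (hψ2 n l hne)

theorem lift_injective_of {s : ℕ → IharaLie} (hs : ∀ n, s n ∈ Dw (ow n))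
    (h0 : ∀ n, cf (s n).val (List.replicate (2 * n + 2) 0 ++ [1]) ≠ 0) :
    Function.Injective (FreeLieAlgebra.lift ℚ s) := by
  apply free_of_indep s (fun n => (hs n).1)
  have hdiag : ∀ n m, m ≠ n + 1 → dc (s n).val m = 0 := by
    intro n m hm
    by_contra hne
    have h1 := (hs n).2 _ hne
    rw [wt_wX, List.length_append, List.length_replicate] at h1
    simp only [ow, List.length_cons, List.length_nil] at h1
    omega
  have hdiag' : ∀ n, dc (s n).val (n + 1) ≠ 0 := by
    intro n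
    have h1 := h0 n
    rw [show 2 * n + 2 = 2 * (n + 1) by ring] at h1
    exact h1
  rw [linearIndependent_iff']
  intro S g hg n hn
  have h1 := congrFun hg (n + 1)
  rw [Finset.sum_apply, Finset.sum_eq_single n] at h1
  · rw [Pi.smul_apply, smul_eq_mul, Pi.zero_apply] at h1
    exact (mul_eq_zero.mp h1).resolve_right (hdiag' n)
  · intro k _ hk
    rw [Pi.smul_apply, hdiag k (n + 1) (by omega), smul_zero]
  · intro hn'
    exact absurd hn hn'

/-! ### Conclusion -/

theorem Dw_le_VW {s : ℕ → IharaLie} (hs : ∀ n, s n ∈ Dw (ow n))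
    (hinj : Function.Injective (FreeLieAlgebra.lift ℚ s))
    (hK : ∀ w, 3 ≤ w → KV w) (hC : ∀ w, 3 ≤ w → Cleansing w) (w : ℕ) :
    Dw w ≤ VW ℚ s ow w := by
  by_cases hw : w ≤ 2
  · intro ψ hψ
    have : ψ = 0 := valL_injective (dmw_small hw hψ)
    rw [this]
    exact Submodule.zero_mem _
  · have h1 : Module.finrank ℚ (VW ℚ s ow w) = Module.finrank ℚ (FLw ow w) := by
      have h2 := Pool.Agent.ECC.finrank_VW_of_injective (FreeLieAlgebra.lift ℚ s) hinj
        (FreeLieAlgebra.of ℚ) ow w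
      have h3 : (fun x => FreeLieAlgebra.lift ℚ s (FreeLieAlgebra.of ℚ x)) = s := by
        funext x; simp
      rw [h3] at h2
      exact h2
    have h3 := finrank_dmw_le (w := w) (by omega) (hK w (by omega)) (hC w (by omega))
    have h4 := Submodule.eq_of_le_of_finrank_le (VW_le_Dw s hs w)
      ((finrank_Dw_le w).trans (h3.trans h1.ge))
    rw [h4]

theorem VW_le_range {s : ℕ → IharaLie} (w : ℕ) {a : IharaLie} (ha : a ∈ VW ℚ s ow w) :
    a ∈ (FreeLieAlgebra.lift ℚ s).range := by
  induction ha using Submodule.span_induction with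
  | mem a ha =>
    obtain ⟨m, hm, rfl⟩ := ha
    clear hm
    induction m using FreeMagma.rec with
    | of n => exact ⟨FreeLieAlgebra.of ℚ n, by simp [bm]⟩
    | mul a b iha ihb => exact LieSubalgebra.lie_mem _ iha ihb
  | zero => exact LieSubalgebra.zero_mem _
  | add a b _ _ ha hb => exact LieSubalgebra.add_mem _ ha hb
  | smul c a _ ha => exact LieSubalgebra.smul_mem _ c ha

/-- `dm` as a Lie subalgebra. -/
def DM : LieSubalgebra ℚ IharaLie where
  carrier := {ψ | IsDM ψ.val}
  zero_mem' := IsDM_zero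
  add_mem' := fun h h' => Pool.Agent.H44DM.IsDM.add h h'
  smul_mem' := fun c _ h => Pool.Agent.H4DM.IsDM.smul c h
  lie_mem' := fun h h' => Pool.Agent.ECL.IsDM.bracket h h'

theorem range_le {s : ℕ → IharaLie} (hs : ∀ n, IsDM (s n).val) {a : IharaLie}
    (ha : a ∈ (FreeLieAlgebra.lift ℚ s).range) : IsDM a.val := by
  obtain ⟨x, rfl⟩ := ha
  have h : FreeLieAlgebra.lift ℚ s =
      DM.incl.comp (FreeLieAlgebra.lift ℚ (fun n => (⟨s n, hs n⟩ : DM))) := by
    apply FreeLieAlgebra.hom_ext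
    intro n
    simp
  rw [h]
  exact (FreeLieAlgebra.lift ℚ (fun n => (⟨s n, hs n⟩ : DM)) x).2

/-- **Free odd generation of `dm`**, from the two inputs modulo 2. -/
theorem free_generation (hK : ∀ w, 3 ≤ w → KV w) (hC : ∀ w, 3 ≤ w → Cleansing w) :
    ∃ s : ℕ → IharaLie,
      (∀ n, IsDM (s n).val ∧ ∀ l : List (Fin 2), cf (s n).val l ≠ 0 → l.length = 2 * n + 3) ∧
      Function.Injective (FreeLieAlgebra.lift ℚ s) ∧
      ∀ ψ : IharaLie, ψ ∈ (FreeLieAlgebra.lift ℚ s).range ↔ IsDM ψ.val := by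
  obtain ⟨s, hs, h0⟩ := exists_generators
  have hinj := lift_injective_of hs h0
  refine ⟨s, fun n => ⟨(hs n).1, fun l hl => ?_⟩, hinj, fun ψ => ⟨range_le fun n => (hs n).1, ?_⟩⟩
  · have := (hs n).2 l hl
    rwa [wt_wX] at this
  · intro hψ
    have h1 := sum_comp (w := wX) ψ.val ((Gr wX ψ.val).natDegree + 1) (by omega)
    have h2 : ψ = ∑ i ∈ Finset.range ((Gr wX ψ.val).natDegree + 1),
        (⟨comp wX i ψ.val, comp_lie ψ.mem i⟩ : IharaLie) := by
      apply valL_injective
      rw [map_sum]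
      exact h1.symm
    rw [h2]
    apply sum_mem
    intro i _
    exact VW_le_range i (Dw_le_VW hs hinj hK hC i ⟨hψ.comp i, Hg_comp i _⟩)

end

end Pool.Agent.ECA
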