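import Pool.Agent.ECA.Assembly
import Pool.Agent.ECB.Filt

/-!
# Cleansing from its depth-graded form

`LCP w`: a solution modulo 2 of the linearised double shuffle equations of weight `w` and depth
`d ≥ 1` which vanishes on all unit-free words is zero.  `cleansing_of_LC` deduces `Cleansing w`.

`cleansing_of_relations`: the same from integral relations on `dm_w` which express every
coefficient by unit-free ones and ones of smaller depth.
-/

set_option autoImplicit false

namespace Pool.Agent.ECA

open Pool.Agent.H4DM Pool.Agent.H44DM
open Pool.Agent.ECB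
open Pool.Agent.ECK (cy)

/-- The linearised double shuffle equations in weight `w` and depth `d`. -/
structure IsLS {R : Type*} [CommRing R] (w d : ℕ) (F : List (Fin 2) → R) : Prop where
  len : ∀ l, l.length ≠ w → F l = 0
  dep : ∀ l, l.count 1 ≠ d → F l = 0
  sh : ∀ u v, u ≠ [] → v ≠ [] → sh F u v = 0
  hsh : ∀ a u, hsh F a u = 0
  lst : ∀ u v : List ℕ+, u ≠ [] → v ≠ [] → Pool.Agent.ECB.sh (fun t => F (yw t)) u v = 0

/-- The depth-graded form of cleansing. -/
def LCP (w : ℕ) : Prop := ∀ (d : ℕ) (F : List (Fin 2) → ZMod 2), 1 ≤ d → IsLS w d F →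
  (∀ v : List ℕ, F (cy v) = 0) → F = 0

theorem sh_zero' {α R : Type*} [AddCommMonoid R] (u v : List α) :
    Pool.Agent.ECB.sh (fun _ => (0 : R)) u v = 0 := by
  rw [Pool.Agent.ECB.sh]; simp

theorem count_of_mem_shf {u v t : List (Fin 2)} (h : t ∈ shf u v) :
    t.count 1 = u.count 1 + v.count 1 := by
  rw [(perm_of_mem_shf u v t h).count_eq, List.count_append]

/-- The lowest depth part of an element of `redM w p` satisfies the linearised double shuffle
equations. -/
theorem isLS_of_redM {w p : ℕ} [NeZero p] {c : List (Fin 2) → ZMod p} (hc : c ∈ redM w p) {d : ℕ}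
    (hd : ∀ l : List (Fin 2), l.count 1 < d → c l = 0) :
    IsLS w d (fun l => if l.count 1 = d then c l else 0) := by
  refine ⟨?_, ?_, ?_, ?_, ?_⟩
  · intro l hl
    show (if l.count 1 = d then c l else 0) = 0
    rw [redM_length hc hl, ite_self]
  · intro l hl
    exact if_neg hl
  · intro u v hu hv
    by_cases h : u.count 1 + v.count 1 = d
    · rw [← redM_sh hc hu hv]
      apply sh_congr
      intro t ht
      rw [if_pos]
      rw [count_of_mem_shf ht, h]
    · refine Eq.trans (sh_congr _ _ ?_) (sh_zero' u v)
      intro t ht
      rw [if_neg]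
      rw [count_of_mem_shf ht]
      exact h
  · intro a u
    by_cases h : (a :: u).count 1 + (a :: u).count 1 = d
    · rw [← redM_hsh hc a u, hsh, hsh]
      apply sh_congr
      intro t ht
      rw [if_pos]
      have h1 : (a :: t).count 1 = (a :: u).count 1 + (a :: u).count 1 := by
        rw [List.count_cons, count_of_mem_shf ht, List.count_cons]; ring
      rw [h1, h]
    · rw [hsh]
      refine Eq.trans (sh_congr _ _ ?_) (sh_zero' u (a :: u))
      intro t ht
      rw [if_neg]
      have h1 : (a :: t).count 1 = (a :: u).count 1 + (a :: u).count 1 := by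
        rw [List.count_cons, count_of_mem_shf ht, List.count_cons]; ring
      rw [h1]
      exact h
  · intro u v hu hv
    by_cases h : u.length + v.length = d
    · have h1 : Pool.Agent.ECB.sh (fun t => if (yw t).count 1 = d then c (yw t) else 0) u v =
          Pool.Agent.ECB.sh (fun t => c (yw t)) u v := by
        apply sh_congr
        intro t ht
        rw [if_pos]
        rw [count_yw, length_of_mem_shf ht, h]
      rw [h1]
      by_cases hx : ∃ x ∈ u ++ v, x ≠ 1
      · rw [← redM_st hc hu hv hx, st_eq_sh]
        intro t _ ht
        apply hd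
        rw [count_yw, ← h]
        exact ht
      · push Not at hx
        refine Eq.trans (sh_congr _ _ ?_) (sh_zero' u v)
        intro t ht
        have h2 : t = List.replicate t.length 1 := by
          rw [List.eq_replicate_iff]
          refine ⟨rfl, fun x hx' => ?_⟩
          exact hx x ((perm_of_mem_shf u v t ht).subset hx')
        rw [h2, yw_ones]
        exact redM_ones hc _
    · refine Eq.trans (sh_congr _ _ ?_) (sh_zero' u v)
      intro t ht
      rw [if_neg]
      rw [count_yw, length_of_mem_shf ht]
      exact h

theorem eq_replicate_of_count {l : List (Fin 2)} (h : l.count 1 = 0) :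
    l = List.replicate l.length 0 := by
  rw [List.eq_replicate_iff]
  refine ⟨rfl, fun x hx => ?_⟩
  rw [List.count_eq_zero] at h
  rcases (by omega : x.val = 0 ∨ x.val = 1) with h1 | h1
  · exact Fin.ext h1
  · exfalso
    apply h
    have : x = 1 := Fin.ext h1
    rwa [← this]

theorem cleansing_of_LC {w : ℕ} (h : LCP w) : Cleansing w := by
  intro c hc hv
  have key : ∀ d : ℕ, ∀ l : List (Fin 2), l.count 1 = d → c l = 0 := by
    intro d
    induction d using Nat.strong_induction_on with
    | _ d ih =>
      intro l hl
      rcases Nat.eq_zero_or_pos d with h0 | h0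
      · rw [h0] at hl
        rw [eq_replicate_of_count hl]
        exact redM_zeros hc _
      · have h1 := isLS_of_redM hc (d := d) (fun l hl => ih _ hl l rfl)
        have h2 := h d _ h0 h1 (by
          intro v
          show (if (cy v).count 1 = d then c (cy v) else 0) = 0
          rw [hv v, ite_self])
        have h3 := congrFun h2 l
        simp only [if_pos hl] at h3
        exact h3
  funext l
  exact key _ l rfl

/-- Cleansing from integral relations. -/
theorem cleansing_of_relations {w : ℕ} (h : ∀ l : List (Fin 2), l.length = w →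
    ∃ z : List (Fin 2) →₀ ℤ, (∀ l' ∈ z.support, (∃ v, l' = cy v) ∨ l'.count 1 < l.count 1) ∧
      ∀ ψ ∈ dmw w, cf ψ l = z.sum (fun l' n => (n : ℚ) * cf ψ l')) : Cleansing w := by
  intro c hc hv
  have hc' := hc
  obtain ⟨ψ, hψ, y, hy, hcy⟩ := hc'
  have key : ∀ d : ℕ, ∀ l : List (Fin 2), l.count 1 = d → c l = 0 := by
    intro d
    induction d using Nat.strong_induction_on with
    | _ d ih =>
      intro l hl
      by_cases hlen : l.length = w
      · obtain ⟨z, hz, hrel⟩ := h l hlen
        have h1 := hrel ψ hψ
        have h2 : y l = z.sum (fun l' n => n * y l') := by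
          have : ((y l : ℤ) : ℚ) = ((z.sum (fun l' n => n * y l') : ℤ) : ℚ) := by
            rw [← hy l, h1, Finsupp.sum, Finsupp.sum]
            push_cast
            apply Finset.sum_congr rfl
            intro l' _
            rw [hy l']
          exact_mod_cast this
        rw [hcy l, h2, Finsupp.sum]
        push_cast
        apply Finset.sum_eq_zero
        intro l' hl'
        rw [← hcy l']
        rcases hz l' hl' with ⟨v, rfl⟩ | h3
        · rw [hv v, mul_zero]
        · rw [ih _ (by omega) l' rfl, mul_zero]
      · exact redM_length hc hlen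
  funext l
  exact key _ l rfl

/-- **Free odd generation of `dm`**, from `KV` and the depth-graded form of cleansing. -/
theorem free_generation_of_LC (hK : ∀ w, 3 ≤ w → KV w) (hC : ∀ w, 3 ≤ w → LCP w) :
    ∃ s : ℕ → IharaLie,
      (∀ n, IsDM (s n).val ∧ ∀ l : List (Fin 2), cf (s n).val l ≠ 0 → l.length = 2 * n + 3) ∧
      Function.Injective (FreeLieAlgebra.lift ℚ s) ∧
      ∀ ψ : IharaLie, ψ ∈ (FreeLieAlgebra.lift ℚ s).range ↔ IsDM ψ.val :=
  free_generation hK (fun w hw => cleansing_of_LC (hC w hw))

end Pool.Agent.ECA
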