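import Pool.Agent.ECK.Final
import Pool.Agent.ECA.LC

/-!
# The unit-free parts are Lie elements in the letters of weights `2`, `3`

`kv`: the statement `KV w` holds for all `w ≥ 3`.  Hence the free generation of `dm` follows from
cleansing modulo 2 alone.
-/

set_option autoImplicit false

namespace Pool.Agent.ECA

open Pool.Agent.H4DM Pool.Agent.H44DM

noncomputable section

theorem kv {w : ℕ} (hw : 3 ≤ w) : KV w := fun _ hc => Pool.Agent.ECK.unitfree hc hw

/-- **Free odd generation of `dm`** follows from cleansing modulo 2. -/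
theorem free_generation_of_cleansing (hC : ∀ w, 3 ≤ w → Cleansing w) :
    ∃ s : ℕ → IharaLie,
      (∀ n, IsDM (s n).val ∧ ∀ l : List (Fin 2), cf (s n).val l ≠ 0 → l.length = 2 * n + 3) ∧
      Function.Injective (FreeLieAlgebra.lift ℚ s) ∧
      ∀ ψ : IharaLie, ψ ∈ (FreeLieAlgebra.lift ℚ s).range ↔ IsDM ψ.val :=
  free_generation (fun _ hw => kv hw) hC

/-- **Free odd generation of `dm`** follows from the depth-graded form of cleansing modulo 2. -/
theorem free_generation_of_LCP (hC : ∀ w, 3 ≤ w → LCP w) :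
    ∃ s : ℕ → IharaLie,
      (∀ n, IsDM (s n).val ∧ ∀ l : List (Fin 2), cf (s n).val l ≠ 0 → l.length = 2 * n + 3) ∧
      Function.Injective (FreeLieAlgebra.lift ℚ s) ∧
      ∀ ψ : IharaLie, ψ ∈ (FreeLieAlgebra.lift ℚ s).range ↔ IsDM ψ.val :=
  free_generation_of_LC (fun _ hw => kv hw) hC

end

end Pool.Agent.ECA
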